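import Pool.Agent.Q115.EPMain

namespace Pool.Agent.Results.MP_0ca78d_co.SparseEdgeProper

open SimpleGraph

/-- `e` is an edge of a cycle of length `i` of the graph `G` on `n` vertices. -/
def OnCycle {n : ℕ} (G : SimpleGraph (Fin n)) (e : Sym2 (Fin n)) (i : ℕ) : Prop :=
  ∃ (v : Fin n) (w : G.Walk v v), w.IsCycle ∧ w.length = i ∧ e ∈ w.edges

/-- `G` is `k`-edge-proper: every edge of `G` lies in a cycle of length `i` for each `i` with
`3 ≤ i ≤ k`, and every edge of `G` lies in a Hamilton cycle (a cycle of length `n`, where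
`n` is the number of vertices). -/
def EdgeProper {n : ℕ} (k : ℕ) (G : SimpleGraph (Fin n)) : Prop :=
  (∀ e ∈ G.edgeSet, ∀ i, 3 ≤ i → i ≤ k → OnCycle G e i) ∧
    ∀ e ∈ G.edgeSet, OnCycle G e n

/-- For every `k ≥ 48` there are infinitely many `n` for which some `k`-edge-proper graph (with
at least one edge) on `n` vertices has fewer than `⌈(4 k - 9) n / (2 k - 4)⌉` edges. -/
theorem result : ∀ k : ℕ, 48 ≤ k → ∀ n₀ : ℕ, ∃ n : ℕ, n₀ ≤ n ∧ ∃ G : SimpleGraph (Fin n),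
    EdgeProper k G ∧ G.edgeSet.Nonempty ∧
    (G.edgeSet.ncard : ℤ) < ⌈(4 * (k : ℝ) - 9) * n / (2 * k - 4)⌉ := by
  intro k hk n₀
  obtain ⟨n, hn, G, hG, hne, hc⟩ := Pool.Agent.Q115.EP.sparse (n₀ + k)
  refine ⟨n, by omega, G, ⟨?_, ?_⟩, hne, ?_⟩
  · intro e he i h3 hi
    exact hG e he i h3 (by omega)
  · intro e he
    exact hG e he n (by omega) le_rfl
  · rw [Int.lt_ceil]
    have h : (91 : ℝ) * G.edgeSet.ncard + 51 + n + 91 ≤ 182 * n := by exact_mod_cast hc
    have hk' : (48 : ℝ) ≤ k := by exact_mod_cast hk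
    have hn' : (0 : ℝ) ≤ n := Nat.cast_nonneg n
    rw [lt_div_iff₀ (by linarith)]
    push_cast
    have h2 : (G.edgeSet.ncard : ℝ) < 181 / 91 * n := by linarith
    have h3 : (G.edgeSet.ncard : ℝ) * (2 * k - 4) ≤ 181 / 91 * n * (2 * k - 4) :=
      mul_le_mul_of_nonneg_right h2.le (by linarith)
    have h4 : (G.edgeSet.ncard : ℝ) * (2 * k - 4) < 181 / 91 * n * (2 * k - 4) :=
      mul_lt_mul_of_pos_right h2 (by linarith)
    nlinarith [mul_nonneg hn' (by linarith : (0 : ℝ) ≤ (k : ℝ) - 48)]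

end Pool.Agent.Results.MP_0ca78d_co.SparseEdgeProper
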